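import Mathlib

open Finset

namespace Pool.Agent.Results.MP_cec948_nt.Sign

/-- The binomial coefficient of a rational `a`. -/
def bin (a : ℚ) (k : ℕ) : ℚ := (∏ i ∈ range k, (a - i)) / k.factorial

/-- The sums `S_p` (`c = -3`) and `T_p` (`c = 81`). -/
def S (c : ℚ) (p : ℕ) : ℚ := ∑ k ∈ range p, bin (-1 / 4) k * bin (-1 / 2) k / c ^ k

/-- `x - y` lies in `p ^ 2 ℤ_(p)`. -/
def Cong (p : ℕ) (x y : ℚ) : Prop := ¬ p ∣ ((x - y) / p ^ 2).den

theorem result : ¬ ∀ p : ℕ, p.Prime → 5 < p → p % 4 = 1 →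
    Cong p (S (-3) p) ((-1) ^ ((p - 1) / 4) * S 81 p) := fun h =>
  h 13 (by norm_num) (by norm_num) (by norm_num) (by decide +kernel)

end Pool.Agent.Results.MP_cec948_nt.Sign
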